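import Mathlib

namespace Pool.Agent.Results.MP_f5c34b_co.Full

open PowerSeries Filter BinaryTree

/-- The Taylor series of `(1 - sqrt (1 - 4 z)) / 2`: the coefficient of `z ^ n` is the
Catalan number `catalan (n - 1)` for `n ≥ 1`, and `0` for `n = 0`. -/
noncomputable def B : ℝ⟦X⟧ := PowerSeries.mk fun n => if n = 0 then 0 else (catalan (n - 1) : ℝ)

/-- The series of duplication-loss histories at the root of a species tree
(`nil` is a leaf, `node` an internal node with its two children). -/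
noncomputable def H : BinaryTree Unit → ℝ⟦X⟧
  | .nil => B
  | .node _ l r => B.subst (H l * H r + H l + H r)

/-- `h_S(n)`. -/
noncomputable def h (S : BinaryTree Unit) (n : ℕ) : ℝ := coeff n (H S)

/-- The radius of convergence of the root series. -/
noncomputable def rho (S : BinaryTree Unit) : ℝ :=
  sSup {r : ℝ | 0 ≤ r ∧ Summable fun n => h S n * r ^ n}

/-- The exponential growth factor. -/
noncomputable def alpha (S : BinaryTree Unit) : ℝ := (rho S)⁻¹

/-- The caterpillar with `k ≥ 1` leaves. -/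
def CT : ℕ → BinaryTree Unit
  | 0 => .nil
  | 1 => .nil
  | k + 2 => .node () (CT (k + 1)) .nil

/-- The balanced tree with `k ≥ 1` leaves. -/
def BT (k : ℕ) : BinaryTree Unit :=
  if _h : k ≤ 1 then .nil else .node () (BT (k / 2)) (BT (k - k / 2))
termination_by k
decreasing_by all_goals omega

lemma B_eq : B = X + B ^ 2 := by
  have h1 := congrArg (PowerSeries.map (Nat.castRingHom ℝ)) catalanSeries_sq_mul_X_add_one
  simp only [map_add, map_mul, map_pow, map_one, PowerSeries.map_X] at h1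
  set C' := PowerSeries.map (Nat.castRingHom ℝ) catalanSeries with hC
  have h2 : B = X * C' := by
    ext n
    cases n with
    | zero => simp [B]
    | succ n => simp [B, coeff_succ_X_mul, hC]
  rw [h2]
  linear_combination (-X) * h1

lemma B_zero : constantCoeff B = 0 := by simp [B]

/-- the argument of `B` at the root -/
noncomputable def A : BinaryTree Unit → ℝ⟦X⟧
  | .nil => X
  | .node _ l r => H l * H r + H l + H r

lemma H_zero (S : BinaryTree Unit) : constantCoeff (H S) = 0 := by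
  induction S with
  | nil => exact B_zero
  | node _ l r ihl ihr =>
    simp only [H]
    apply constantCoeff_subst_eq_zero _ _ B_zero
    change constantCoeff (H l * H r + H l + H r) = 0
    simp [ihl, ihr]

lemma A_zero (S : BinaryTree Unit) : constantCoeff (A S) = 0 := by
  cases S with
  | nil => simp [A]
  | node _ l r => simp [A, H_zero]

lemma H_eq (S : BinaryTree Unit) : H S = A S + H S ^ 2 := by
  cases S with
  | nil => exact B_eq
  | node u l r =>
    have hs : HasSubst (A (.node u l r)) := HasSubst.of_constantCoeff_zero' (A_zero _)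
    have h1 : H (.node u l r) = B.subst (A (.node u l r)) := rfl
    have h2 := congrArg (fun f : ℝ⟦X⟧ => (f.subst (A (.node u l r)) : ℝ⟦X⟧)) B_eq
    simp only [subst_add hs, subst_pow hs, subst_X hs] at h2
    rw [h1]; exact h2

def NN (P : ℝ⟦X⟧) : Prop := ∀ n, 0 ≤ coeff n P

lemma NN.mul {P Q : ℝ⟦X⟧} (hP : NN P) (hQ : NN Q) : NN (P * Q) := fun n => by
  rw [coeff_mul]; exact Finset.sum_nonneg fun p _ => mul_nonneg (hP _) (hQ _)

lemma NN.add {P Q : ℝ⟦X⟧} (hP : NN P) (hQ : NN Q) : NN (P + Q) := fun n => by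
  rw [map_add]; exact add_nonneg (hP _) (hQ _)

lemma NN_of_eq {Y P : ℝ⟦X⟧} (hY : Y = P + Y ^ 2) (h0 : constantCoeff Y = 0) (hP : NN P) :
    NN Y := by
  intro n
  induction n using Nat.strong_induction_on with
  | _ n ih =>
    have h0' : coeff 0 Y = 0 := by simpa using h0
    have : coeff n Y = coeff n P + coeff n (Y * Y) := by
      conv_lhs => rw [hY]
      rw [map_add, sq]
    rw [this, coeff_mul]
    refine add_nonneg (hP n) (Finset.sum_nonneg fun p hp => ?_)
    rw [Finset.HasAntidiagonal.mem_antidiagonal] at hp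
    by_cases h1 : p.1 = 0
    · rw [h1, h0']; simp
    by_cases h2 : p.2 = 0
    · rw [h2, h0']; simp
    exact mul_nonneg (ih _ (by omega)) (ih _ (by omega))

lemma NN_X : NN X := fun n => by
  rw [coeff_X]; split_ifs <;> norm_num

lemma NN_H (S : BinaryTree Unit) : NN (H S) := by
  induction S with
  | nil => exact NN_of_eq (H_eq _) (H_zero _) NN_X
  | node _ l r ihl ihr =>
    exact NN_of_eq (H_eq _) (H_zero _) (((ihl.mul ihr).add ihl).add ihr)

lemma NN_A (S : BinaryTree Unit) : NN (A S) := by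
  cases S with
  | nil => exact NN_X
  | node _ l r => exact (((NN_H l).mul (NN_H r)).add (NN_H l)).add (NN_H r)

lemma h_nonneg (S : BinaryTree Unit) (n : ℕ) : 0 ≤ h S n := NN_H S n

lemma coeff_H (S : BinaryTree Unit) (n : ℕ) :
    coeff n (H S) = coeff n (A S) + coeff n (H S * H S) := by
  conv_lhs => rw [H_eq S]
  rw [map_add, sq]

lemma supermul (S : BinaryTree Unit) (n m : ℕ) : h S n * h S m ≤ h S (n + m) := by
  unfold h
  rw [coeff_H S (n + m), coeff_mul]
  have := Finset.single_le_sum (f := fun p : ℕ × ℕ => coeff p.1 (H S) * coeff p.2 (H S))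
    (s := Finset.HasAntidiagonal.antidiagonal (n + m)) (fun p _ => mul_nonneg (NN_H S _) (NN_H S _))
    (a := (n, m)) (by simp)
  have h2 := NN_A S (n + m)
  simp only at this
  linarith

lemma h_one (S : BinaryTree Unit) : 1 ≤ h S 1 := by
  induction S with
  | nil =>
    unfold h; rw [coeff_H]
    have := (NN_H .nil).mul (NN_H .nil) 1
    simp only [A, coeff_one_X]; linarith
  | node u l r ihl ihr =>
    unfold h at *; rw [coeff_H]
    have h1 := (NN_H (.node u l r)).mul (NN_H (.node u l r)) 1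
    have h2 := (NN_H l).mul (NN_H r) 1
    simp only [A, map_add]; linarith

lemma h_ge_one (S : BinaryTree Unit) (n : ℕ) : 1 ≤ h S (n + 1) := by
  induction n with
  | zero => exact h_one S
  | succ n ih =>
    have := supermul S (n + 1) 1
    have h1 := h_one S
    nlinarith

/-- truncated sums -/
noncomputable def ps (P : ℝ⟦X⟧) (z : ℝ) (N : ℕ) : ℝ := ∑ n ∈ Finset.range N, coeff n P * z ^ n

lemma conv_le (f g : ℕ → ℝ) (hf : ∀ n, 0 ≤ f n) (hg : ∀ n, 0 ≤ g n) (M : ℕ) (s t : Finset ℕ)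
    (hst : ∀ i j, i + j < M → f i * g j ≠ 0 → i ∈ s ∧ j ∈ t) :
    ∑ n ∈ Finset.range M, ∑ p ∈ Finset.HasAntidiagonal.antidiagonal n, f p.1 * g p.2
      ≤ (∑ i ∈ s, f i) * ∑ j ∈ t, g j := by
  classical
  rw [← Finset.sum_biUnion, Finset.sum_mul_sum, ← Finset.sum_product', ← Finset.sum_filter_ne_zero]
  · apply Finset.sum_le_sum_of_subset_of_nonneg
    · intro p hp
      simp only [Finset.mem_filter, Finset.mem_biUnion, Finset.mem_range,
        Finset.HasAntidiagonal.mem_antidiagonal] at hp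
      obtain ⟨⟨n, hn, hpn⟩, hne⟩ := hp
      rw [Finset.mem_product]
      exact hst _ _ (by omega) hne
    · intro p _ _; exact mul_nonneg (hf _) (hg _)
  · intro a _ b _ hab
    simp only [Function.onFun]
    rw [Finset.disjoint_left]
    intro p hp hq
    rw [Finset.HasAntidiagonal.mem_antidiagonal] at hp hq
    omega

lemma coeff_mul_pow (P Q : ℝ⟦X⟧) (z : ℝ) (n : ℕ) :
    coeff n (P * Q) * z ^ n
      = ∑ p ∈ Finset.HasAntidiagonal.antidiagonal n, (coeff p.1 P * z ^ p.1) * (coeff p.2 Q * z ^ p.2) := by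
  rw [coeff_mul, Finset.sum_mul]
  refine Finset.sum_congr rfl fun p hp => ?_
  rw [Finset.HasAntidiagonal.mem_antidiagonal] at hp
  rw [← hp, pow_add]; ring

lemma ps_nonneg {P : ℝ⟦X⟧} (hP : NN P) {z : ℝ} (hz : 0 ≤ z) (N : ℕ) : 0 ≤ ps P z N :=
  Finset.sum_nonneg fun n _ => mul_nonneg (hP n) (pow_nonneg hz n)

lemma ps_mul {P Q : ℝ⟦X⟧} (hP : NN P) (hQ : NN Q) {z : ℝ} (hz : 0 ≤ z) (N : ℕ) :
    ps (P * Q) z N ≤ ps P z N * ps Q z N := by
  unfold ps
  simp only [coeff_mul_pow]
  apply conv_le (fun n => coeff n P * z ^ n) (fun n => coeff n Q * z ^ n)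
    (fun n => mul_nonneg (hP n) (pow_nonneg hz n)) (fun n => mul_nonneg (hQ n) (pow_nonneg hz n))
  intro i j hij _
  simp only [Finset.mem_range]; omega

lemma ps_sq {P : ℝ⟦X⟧} (hP : NN P) (h0 : constantCoeff P = 0) {z : ℝ} (hz : 0 ≤ z) (N : ℕ) :
    ps (P * P) z (N + 1) ≤ ps P z N * ps P z N := by
  have h0' : coeff 0 P = 0 := by simpa using h0
  unfold ps
  simp only [coeff_mul_pow]
  apply conv_le (fun n => coeff n P * z ^ n) (fun n => coeff n P * z ^ n)
    (fun n => mul_nonneg (hP n) (pow_nonneg hz n)) (fun n => mul_nonneg (hP n) (pow_nonneg hz n))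
  intro i j hij hne
  have hi : i ≠ 0 := by rintro rfl; simp [h0'] at hne
  have hj : j ≠ 0 := by rintro rfl; simp [h0'] at hne
  simp only [Finset.mem_range]; omega

lemma ps_add (P Q : ℝ⟦X⟧) (z : ℝ) (N : ℕ) : ps (P + Q) z N = ps P z N + ps Q z N := by
  unfold ps; simp only [map_add, add_mul, Finset.sum_add_distrib]

lemma ps_H_le (S : BinaryTree Unit) {z a y : ℝ} (hz : 0 ≤ z) (ha : ∀ N, ps (A S) z N ≤ a)
    (hy : 0 ≤ y) (hay : a + y ^ 2 ≤ y) (N : ℕ) : ps (H S) z N ≤ y := by
  induction N with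
  | zero => simpa [ps] using hy
  | succ N ih =>
    have h1 : ps (H S) z (N + 1) = ps (A S) z (N + 1) + ps (H S * H S) z (N + 1) := by
      rw [← ps_add, ← sq, ← H_eq]
    have h2 := ps_sq (NN_H S) (H_zero S) hz N
    have h3 := ps_nonneg (NN_H S) hz N
    have h4 := ha (N + 1)
    nlinarith

noncomputable def be (a : ℝ) : ℝ := (1 - Real.sqrt (1 - 4 * a)) / 2

lemma be_eq {a : ℝ} (ha : a ≤ 1 / 4) : be a - be a ^ 2 = a := by
  unfold be
  have := Real.sq_sqrt (show 0 ≤ 1 - 4 * a by linarith)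
  nlinarith

lemma be_le_half (a : ℝ) : be a ≤ 1 / 2 := by
  unfold be; have := Real.sqrt_nonneg (1 - 4 * a); linarith

lemma be_ge {a : ℝ} (ha : a ≤ 1 / 4) : a ≤ be a := by
  have := be_eq ha; nlinarith

lemma be_le_of {a y : ℝ} (hay : a + y ^ 2 ≤ y) : be a ≤ y := by
  unfold be
  have : 1 - 2 * y ≤ Real.sqrt (1 - 4 * a) := Real.le_sqrt_of_sq_le (by nlinarith)
  linarith

lemma be_mono {a b : ℝ} (hab : a ≤ b) : be a ≤ be b := by
  unfold be
  have : Real.sqrt (1 - 4 * b) ≤ Real.sqrt (1 - 4 * a) := Real.sqrt_le_sqrt (by linarith)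
  linarith

lemma be_lt {a b : ℝ} (hab : a < b) (hb : b ≤ 1 / 4) : be a < be b := by
  unfold be
  have : Real.sqrt (1 - 4 * b) < Real.sqrt (1 - 4 * a) := Real.sqrt_lt_sqrt (by linarith) (by linarith)
  linarith

lemma be_cont : Continuous be := by unfold be; fun_prop

noncomputable def ar : BinaryTree Unit → ℝ → ℝ
  | .nil, z => z
  | .node _ l r, z => be (ar l z) * be (ar r z) + be (ar l z) + be (ar r z)

def OK : BinaryTree Unit → ℝ → Prop
  | .nil, z => z ≤ 1 / 4
  | .node u l r, z => OK l z ∧ OK r z ∧ ar (.node u l r) z ≤ 1 / 4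

lemma OK.le {S : BinaryTree Unit} {z : ℝ} (hS : OK S z) : ar S z ≤ 1 / 4 := by
  cases S with
  | nil => exact hS
  | node u l r => exact hS.2.2

lemma OK.ge {S : BinaryTree Unit} {z : ℝ} (hz : 0 ≤ z) (hS : OK S z) :
    (S.numLeaves : ℝ) * z ≤ ar S z := by
  induction S with
  | nil => simp [ar]
  | node u l r ihl ihr =>
    have h1 := (ihl hS.1).trans (be_ge hS.1.le)
    have h2 := (ihr hS.2.1).trans (be_ge hS.2.1.le)
    have h3 : 0 ≤ (l.numLeaves : ℝ) * z := by positivity
    have h4 : 0 ≤ (r.numLeaves : ℝ) * z := by positivity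
    simp only [ar, numLeaves, Nat.cast_add]
    nlinarith [mul_nonneg (h3.trans h1) (h4.trans h2)]

lemma OK.ge' {S : BinaryTree Unit} {z : ℝ} (hz : 0 ≤ z) (hS : OK S z) : z ≤ ar S z := by
  have h1 := hS.ge hz
  have h2 : (1 : ℝ) ≤ S.numLeaves := by exact_mod_cast S.numLeaves_pos
  nlinarith

lemma OK.be_ge {S : BinaryTree Unit} {z : ℝ} (hz : 0 ≤ z) (hS : OK S z) : z ≤ be (ar S z) :=
  (hS.ge' hz).trans (Full.be_ge hS.le)

lemma OK.ps_le {S : BinaryTree Unit} {z : ℝ} (hz : 0 ≤ z) (hS : OK S z) (N : ℕ) :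
    ps (H S) z N ≤ be (ar S z) := by
  induction S generalizing N with
  | nil =>
    refine ps_H_le _ hz (a := z) (fun M => ?_) (hz.trans (hS.be_ge hz))
      (by have := be_eq hS.le; simp only [ar] at *; linarith) N
    unfold ps
    simp only [A, coeff_X, ite_mul, one_mul, zero_mul, Finset.sum_ite_eq']
    split_ifs <;> simp [hz]
  | node u l r ihl ihr =>
    refine ps_H_le _ hz (a := ar (.node u l r) z) (fun M => ?_) (hz.trans (hS.be_ge hz))
      (by have := be_eq hS.le; linarith) N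
    simp only [A, ps_add, ar]
    have h1 := ihl hS.1 M
    have h2 := ihr hS.2.1 M
    have h3 := ps_mul (NN_H l) (NN_H r) hz M
    have h4 := ps_nonneg (NN_H l) hz M
    have h5 := ps_nonneg (NN_H r) hz M
    have h6 := mul_le_mul h1 h2 h5 (h4.trans h1)
    linarith

lemma OK.summable {S : BinaryTree Unit} {z : ℝ} (hz : 0 ≤ z) (hS : OK S z) :
    Summable fun n => h S n * z ^ n :=
  summable_of_sum_range_le (fun n => mul_nonneg (h_nonneg S n) (pow_nonneg hz n))
    (fun N => hS.ps_le hz N)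

lemma OK.term_le {S : BinaryTree Unit} {z : ℝ} (hz : 0 ≤ z) (hS : OK S z) (n : ℕ) :
    h S n * z ^ n ≤ 1 := by
  have h1 := hS.ps_le hz (n + 1)
  have h2 := be_le_half (ar S z)
  have h3 := ps_nonneg (NN_H S) hz n
  unfold ps at h1 h3
  rw [Finset.sum_range_succ] at h1
  unfold h; linarith

def Sm (P : ℝ⟦X⟧) (z : ℝ) : Prop := Summable fun n => coeff n P * z ^ n
noncomputable def ev (P : ℝ⟦X⟧) (z : ℝ) : ℝ := ∑' n, coeff n P * z ^ n

lemma Sm.norm {P : ℝ⟦X⟧} {z : ℝ} (h : Sm P z) : Summable fun n => ‖coeff n P * z ^ n‖ :=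
  Summable.norm h

lemma Sm.mul {P Q : ℝ⟦X⟧} {z : ℝ} (hP : Sm P z) (hQ : Sm Q z) :
    Sm (P * Q) z ∧ ev (P * Q) z = ev P z * ev Q z := by
  unfold Sm ev
  simp only [coeff_mul_pow]
  exact ⟨(summable_norm_sum_mul_antidiagonal_of_summable_norm hP.norm hQ.norm).of_norm,
    (tsum_mul_tsum_eq_tsum_sum_antidiagonal_of_summable_norm hP.norm hQ.norm).symm⟩

lemma Sm.add {P Q : ℝ⟦X⟧} {z : ℝ} (hP : Sm P z) (hQ : Sm Q z) :
    Sm (P + Q) z ∧ ev (P + Q) z = ev P z + ev Q z := by
  unfold Sm ev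
  simp only [map_add, add_mul]
  exact ⟨Summable.add hP hQ, Summable.tsum_add hP hQ⟩

lemma Sm.of_add {P Q : ℝ⟦X⟧} {z : ℝ} (hz : 0 ≤ z) (hP : NN P) (hQ : NN Q) (h : Sm (P + Q) z) :
    Sm P z ∧ Sm Q z := by
  unfold Sm at *
  simp only [map_add, add_mul] at h
  have h1 : ∀ n, 0 ≤ coeff n P * z ^ n := fun n => mul_nonneg (hP n) (pow_nonneg hz n)
  have h2 : ∀ n, 0 ≤ coeff n Q * z ^ n := fun n => mul_nonneg (hQ n) (pow_nonneg hz n)
  exact ⟨h.of_nonneg_of_le h1 fun n => by linarith [h2 n],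
    h.of_nonneg_of_le h2 fun n => by linarith [h1 n]⟩

lemma ev_H {S : BinaryTree Unit} {z : ℝ} (hz : 0 ≤ z) (hS : Sm (H S) z) :
    Sm (A S) z ∧ ev (H S) z = ev (A S) z + ev (H S) z ^ 2 := by
  have h1 : H S = A S + H S * H S := by rw [← sq, ← H_eq]
  have h2 : Sm (A S + H S * H S) z := h1 ▸ hS
  obtain ⟨h3, h4⟩ := Sm.of_add hz (NN_A S) ((NN_H S).mul (NN_H S)) h2
  refine ⟨h3, ?_⟩
  conv_lhs => rw [h1]
  rw [(h3.add h4).2, (hS.mul hS).2, sq]

lemma OK_of_sm {S : BinaryTree Unit} {z : ℝ} (hz : 0 ≤ z) (hS : Sm (H S) z) :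
    OK S z ∧ be (ar S z) ≤ ev (H S) z := by
  induction S with
  | nil =>
    obtain ⟨-, h2⟩ := ev_H hz hS
    have h3 : ev (A .nil) z = z := by
      unfold ev
      rw [tsum_eq_single 1]
      · simp [A]
      · intro b hb; simp [A, coeff_X, hb]
    rw [h3] at h2
    exact ⟨by simp only [OK]; nlinarith [sq_nonneg (ev (H .nil) z - 1 / 2)],
      be_le_of (by simp only [ar]; linarith)⟩
  | node u l r ihl ihr =>
    obtain ⟨h1, h2⟩ := ev_H hz hS
    obtain ⟨h3, hr⟩ := Sm.of_add hz (((NN_H l).mul (NN_H r)).add (NN_H l)) (NN_H r) h1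
    obtain ⟨h4, hl⟩ := Sm.of_add hz ((NN_H l).mul (NN_H r)) (NN_H l) h3
    have h5 : ev (A (.node u l r)) z = ev (H l) z * ev (H r) z + ev (H l) z + ev (H r) z := by
      simp only [A]
      rw [(h3.add hr).2, (h4.add hl).2, (hl.mul hr).2]
    obtain ⟨ol, el⟩ := ihl hl
    obtain ⟨or', er⟩ := ihr hr
    have pl := hz.trans (ol.be_ge hz)
    have pr := hz.trans (or'.be_ge hz)
    have h6 : ar (.node u l r) z ≤ ev (A (.node u l r)) z := by
      rw [h5]; simp only [ar]
      have := mul_le_mul el er pr (pl.trans el)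
      linarith
    exact ⟨⟨ol, or', by nlinarith [sq_nonneg (ev (H (.node u l r)) z - 1 / 2)]⟩,
      be_le_of (by linarith)⟩

lemma sm_iff {S : BinaryTree Unit} {z : ℝ} (hz : 0 ≤ z) :
    (Summable fun n => h S n * z ^ n) ↔ OK S z :=
  ⟨fun hS => (OK_of_sm hz hS).1, fun hS => hS.summable hz⟩

lemma ar_cont (S : BinaryTree Unit) : Continuous (ar S) := by
  induction S with
  | nil => exact continuous_id
  | node u l r ihl ihr =>
    have h1 := be_cont.comp ihl
    have h2 := be_cont.comp ihr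
    exact ((h1.mul h2).add h1).add h2

lemma OK_closed (S : BinaryTree Unit) : IsClosed {z | OK S z} := by
  induction S with
  | nil => exact isClosed_Iic
  | node u l r ihl ihr =>
    exact ihl.inter (ihr.inter (isClosed_le (ar_cont (.node u l r)) continuous_const))

lemma OK_open {S : BinaryTree Unit} {z : ℝ} (hz : 0 ≤ z) (hS : OK S z) (hlt : ar S z < 1 / 4) :
    ∀ᶠ w in nhds z, OK S w := by
  induction S with
  | nil => exact (eventually_lt_nhds hlt).mono fun w hw => le_of_lt hw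
  | node u l r ihl ihr =>
    have pl := hz.trans (hS.1.be_ge hz)
    have pr := hz.trans (hS.2.1.be_ge hz)
    have hl := be_ge hS.1.le
    have hr := be_ge hS.2.1.le
    have hlt' := hlt
    simp only [ar] at hlt'
    have h0 := mul_nonneg pl pr
    have h1 := ihl hS.1 (by linarith)
    have h2 := ihr hS.2.1 (by linarith)
    have h3 := (ar_cont (.node u l r)).continuousAt.eventually_lt continuousAt_const hlt
    filter_upwards [h1, h2, h3] with w a b c
    exact ⟨a, b, c.le⟩

lemma ar_zero (S : BinaryTree Unit) : ar S 0 = 0 := by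
  induction S with
  | nil => rfl
  | node u l r ihl ihr => simp [ar, ihl, ihr, be]

lemma OK_zero (S : BinaryTree Unit) : OK S 0 := by
  induction S with
  | nil => simp [OK]
  | node u l r ihl ihr => exact ⟨ihl, ihr, by rw [ar_zero]; norm_num⟩

lemma exists_gt {S : BinaryTree Unit} {z : ℝ} (hz : 0 ≤ z) (hS : OK S z) (hlt : ar S z < 1 / 4) :
    ∃ w, z < w ∧ OK S w := by
  have h1 := (OK_open hz hS hlt).filter_mono (nhdsWithin_le_nhds (s := Set.Ioi z))
  obtain ⟨w, hw1, hw2⟩ := (h1.and self_mem_nhdsWithin).exists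
  exact ⟨w, hw2, hw1⟩

lemma rho_eq (S : BinaryTree Unit) : rho S = sSup {z : ℝ | 0 ≤ z ∧ OK S z} := by
  unfold rho
  congr 1
  ext z
  exact and_congr_right fun hz => sm_iff hz

lemma bdd (S : BinaryTree Unit) : BddAbove {z : ℝ | 0 ≤ z ∧ OK S z} :=
  ⟨1 / 4, fun _ hz => (hz.2.ge' hz.1).trans hz.2.le⟩

lemma le_rho {S : BinaryTree Unit} {z : ℝ} (hz : 0 ≤ z) (hS : OK S z) : z ≤ rho S := by
  rw [rho_eq]; exact le_csSup (bdd S) ⟨hz, hS⟩

lemma rho_pos (S : BinaryTree Unit) : 0 < rho S := by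
  obtain ⟨w, hw, hS⟩ := exists_gt le_rfl (OK_zero S) (by rw [ar_zero]; norm_num)
  exact hw.trans_le (le_rho hw.le hS)

lemma OK_rho (S : BinaryTree Unit) : OK S (rho S) := by
  rw [rho_eq]
  exact ((isClosed_Ici.inter (OK_closed S)).csSup_mem ⟨0, le_rfl, OK_zero S⟩ (bdd S)).2

/-- strict domination -/
def Lt (T S : BinaryTree Unit) : Prop := ∀ z, 0 < z → OK S z → OK T z ∧ ar T z < ar S z

lemma Lt.ev {T S : BinaryTree Unit} (hL : Lt T S) : ∀ᶠ n in atTop, h T n ≤ h S n := by
  have hp := rho_pos S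
  obtain ⟨h1, h2⟩ := hL _ hp (OK_rho S)
  obtain ⟨z2, hz2, hT⟩ := exists_gt hp.le h1 (h2.trans_le (OK_rho S).le)
  obtain ⟨s, hs1, hs2⟩ := exists_between hz2
  obtain ⟨z1, hz1, hz1'⟩ := exists_between hs1
  have hs0 : 0 < s := hp.trans hs1
  have hz10 : 0 < z1 := hp.trans hz1
  have hz20 : 0 < z2 := hp.trans hz2
  have hs4 : s ≤ 1 := by have := (hT.ge' hz20.le).trans hT.le; linarith
  have hn : ¬ Summable fun n => h S n * z1 ^ n := fun hh =>
    absurd (le_rho hz10.le ((sm_iff hz10.le).1 hh)) (not_le.2 hz1)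
  have hex : ∃ m, 1 < h S m * s ^ m := by
    by_contra hc
    push Not at hc
    apply hn
    have hg : Summable fun n : ℕ => (z1 / s) ^ n :=
      summable_geometric_of_lt_one (by positivity) ((div_lt_one hs0).2 hz1')
    refine hg.of_nonneg_of_le (fun n => mul_nonneg (h_nonneg S n) (by positivity)) fun n => ?_
    have : h S n * z1 ^ n = (h S n * s ^ n) * (z1 / s) ^ n := by
      rw [div_pow]; field_simp
    rw [this]
    have h5 : 0 ≤ (z1 / s) ^ n := by positivity
    nlinarith [hc n]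
  obtain ⟨m, hm⟩ := hex
  have hm0 : m ≠ 0 := by
    rintro rfl
    have : h S 0 = 0 := by simpa [h] using H_zero S
    rw [this] at hm; norm_num at hm
  have low : ∀ n, 1 ≤ n → s ^ m ≤ h S n * s ^ n := by
    intro n
    induction n using Nat.strong_induction_on with
    | _ n ih =>
      intro hn1
      by_cases hnm : n ≤ m
      · have h3 : s ^ m ≤ s ^ n := pow_le_pow_of_le_one hs0.le hs4 hnm
        obtain ⟨k, rfl⟩ : ∃ k, n = k + 1 := ⟨n - 1, by omega⟩
        have h4 := h_ge_one S k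
        have h5 : 0 ≤ s ^ (k + 1) := by positivity
        nlinarith
      · obtain ⟨k, rfl⟩ : ∃ k, n = k + m := ⟨n - m, by omega⟩
        have h3 := ih k (by omega) (by omega)
        have h4 := supermul S k m
        have h5 : 0 < s ^ m := by positivity
        have h6 : 0 < s ^ k := by positivity
        calc s ^ m ≤ (h S k * s ^ k) * (h S m * s ^ m) := by nlinarith
          _ = (h S k * h S m) * (s ^ k * s ^ m) := by ring
          _ ≤ h S (k + m) * s ^ (k + m) := by
            rw [pow_add]; exact mul_le_mul_of_nonneg_right h4 (by positivity)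
  have ht : Tendsto (fun n : ℕ => (s / z2) ^ n) atTop (nhds 0) :=
    tendsto_pow_atTop_nhds_zero_of_lt_one (by positivity) ((div_lt_one hz20).2 hs2)
  filter_upwards [ht.eventually (gt_mem_nhds (show 0 < s ^ m by positivity)),
    eventually_ge_atTop 1] with n h3 h4
  have h5 := low n h4
  have h6 := hT.term_le hz20.le n
  have h7 : h T n * s ^ n = (h T n * z2 ^ n) * (s / z2) ^ n := by
    rw [div_pow]; field_simp
  have h8 : 0 ≤ (s / z2) ^ n := by positivity
  have h9 : h T n * s ^ n ≤ h S n * s ^ n := by rw [h7]; nlinarith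
  exact le_of_mul_le_mul_right h9 (by positivity)

/-- same data -/
def Eqv (T S : BinaryTree Unit) : Prop :=
  H T = H S ∧ ∀ z, (OK T z ↔ OK S z) ∧ ar T z = ar S z

lemma Eqv.node {a b c d : BinaryTree Unit} (h1 : Eqv a c) (h2 : Eqv b d) (u v : Unit) :
    Eqv (.node u a b) (.node v c d) := by
  refine ⟨by simp only [H, h1.1, h2.1], fun z => ?_⟩
  simp only [OK, ar, (h1.2 z).1, (h1.2 z).2, (h2.2 z).1, (h2.2 z).2, and_self]

lemma Eqv.swap {a b c d : BinaryTree Unit} (h1 : Eqv a d) (h2 : Eqv b c) (u v : Unit) :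
    Eqv (.node u a b) (.node v c d) := by
  refine ⟨?_, fun z => ?_⟩
  · simp only [H, h1.1, h2.1]
    congr 1; ring
  · have e : be (ar d z) * be (ar c z) + be (ar d z) + be (ar c z)
        = be (ar c z) * be (ar d z) + be (ar c z) + be (ar d z) := by ring
    simp only [OK, ar, (h1.2 z).1, (h1.2 z).2, (h2.2 z).1, (h2.2 z).2, e, and_true]
    tauto

/-- `1 + H(z)` -/
noncomputable def U (S : BinaryTree Unit) (z : ℝ) : ℝ := 1 + be (ar S z)

lemma ar_node (u : Unit) (l r : BinaryTree Unit) (z : ℝ) :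
    1 + ar (.node u l r) z = U l z * U r z := by simp only [ar, U]; ring

lemma U_gt {S : BinaryTree Unit} {z : ℝ} (hz : 0 < z) (hS : OK S z) : 1 < U S z := by
  have := hS.be_ge hz.le; unfold U; linarith

lemma key0 {R P T : ℝ} (h1 : 1 ≤ R) (h2 : R < P) (h3 : P < T) (h4 : T ≤ 3 / 2)
    (h : (P - (P - 1) ^ 2) ^ 2 ≤ (R - (R - 1) ^ 2) * (T - (T - 1) ^ 2)) : P ^ 2 < R * T := by
  by_contra hc
  push Not at hc
  set Q := R * T / P with hQ
  have hP : 0 < P := by linarith
  have hPQ : P * Q = R * T := by rw [hQ]; field_simp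
  have hQP : Q ≤ P := by rw [hQ, div_le_iff₀ hP]; nlinarith
  have hQ1 : R < Q := by rw [hQ, lt_div_iff₀ hP]; nlinarith
  have hs : P + Q < R + T := by
    have : P * (P + Q) < P * (R + T) := by nlinarith [mul_pos (sub_pos.2 h2) (sub_pos.2 h3)]
    exact lt_of_mul_lt_mul_left this hP.le
  have hm : 1 ≤ R * T := by nlinarith
  have e1 : (P - (P - 1) ^ 2) * (Q - (Q - 1) ^ 2) - (R - (R - 1) ^ 2) * (T - (T - 1) ^ 2)
      = (R + T - (P + Q)) * (3 * (R * T + 1) - (R + T) - (P + Q)) := by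
    have : (P - (P - 1) ^ 2) * (Q - (Q - 1) ^ 2)
        = (P * Q) ^ 2 - 3 * (P * Q) * (P + Q) + (P + Q) ^ 2 + 7 * (P * Q) - 3 * (P + Q) + 1 := by
      ring
    rw [this, hPQ]; ring
  have e2 : 0 < (R + T - (P + Q)) * (3 * (R * T + 1) - (R + T) - (P + Q)) :=
    mul_pos (by linarith) (by linarith)
  have e3 : Q - (Q - 1) ^ 2 ≤ P - (P - 1) ^ 2 := by nlinarith
  have e4 : 0 < P - (P - 1) ^ 2 := by nlinarith
  nlinarith

lemma U_phi {S : BinaryTree Unit} {z : ℝ} (hS : OK S z) :
    U S z - (U S z - 1) ^ 2 = 1 + ar S z := by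
  have := be_eq hS.le; unfold U; nlinarith

lemma U_lt {S T : BinaryTree Unit} {z : ℝ} (hT : OK T z) (h : ar S z < ar T z) :
    U S z < U T z := by
  have := be_lt h hT.le; unfold U; linarith

lemma key {a b c : BinaryTree Unit} {z : ℝ} (hz : 0 < z) (ha : OK a z) (hb : OK b z)
    (hc : OK c z) (h1 : ar a z < ar b z) (h2 : ar b z < ar c z)
    (h : (1 + ar b z) ^ 2 ≤ (1 + ar a z) * (1 + ar c z)) : U b z ^ 2 < U a z * U c z := by
  apply key0 (U_gt hz ha).le (U_lt hb h1) (U_lt hc h2)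
  · have := be_le_half (ar c z); unfold U; linarith
  · rw [U_phi ha, U_phi hb, U_phi hc]; exact h

lemma base3 {a b : BinaryTree Unit} {z : ℝ} (hz : 0 < z) (ha : OK a z) (hb : OK b z)
    (h1 : ar a z < ar b z) : U a z * (1 + ar b z) ≤ (1 + ar a z) * U b z := by
  rw [← U_phi ha, ← U_phi hb]
  have h2 := U_gt hz ha
  have h3 := U_lt hb h1
  have h4 : 0 ≤ (U b z - U a z) * (U a z * U b z - 1) := mul_nonneg (by linarith) (by nlinarith)
  nlinarith

/-- A sequence of trees that is increasing and strictly log-convex up to `J`. -/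
def Good (F : ℕ → BinaryTree Unit) (z : ℝ) (J : ℕ) : Prop :=
  (∀ m, 1 ≤ m → m ≤ J → OK (F m) z) ∧ (∀ m, 1 ≤ m → m + 1 ≤ J → ar (F m) z < ar (F (m + 1)) z) ∧
    ∀ m, 1 ≤ m → m + 2 ≤ J → U (F (m + 1)) z ^ 2 < U (F m) z * U (F (m + 2)) z

lemma Good.step {F : ℕ → BinaryTree Unit} {z : ℝ} {J : ℕ} (hz : 0 < z) (hG : Good F z J)
    (i d : ℕ) (hi : 1 ≤ i) (hJ : i + d + 2 ≤ J) :
    U (F (i + 1)) z * U (F (i + d + 1)) z < U (F i) z * U (F (i + d + 2)) z := by
  induction d with
  | zero => have := hG.2.2 i hi hJ; simpa [sq] using this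
  | succ d ih =>
    have h1 := ih (by omega)
    have h2 := hG.2.2 (i + d + 1) (by omega) (by omega)
    have p1 := U_gt hz (hG.1 i hi (by omega))
    have p2 := U_gt hz (hG.1 (i + 1) (by omega) (by omega))
    have p3 := U_gt hz (hG.1 (i + d + 1) (by omega) (by omega))
    have p4 := U_gt hz (hG.1 (i + d + 2) (by omega) (by omega))
    have e1 : i + (d + 1) + 1 = i + d + 2 := by omega
    have e2 : i + (d + 1) + 2 = i + d + 1 + 2 := by omega
    have e3 : i + d + 1 + 1 = i + d + 2 := by omega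
    rw [e1, e2]; rw [e3] at h2
    set a := U (F i) z
    set b := U (F (i + 1)) z
    set c := U (F (i + d + 1)) z
    set e := U (F (i + d + 2)) z
    set f := U (F (i + d + 1 + 2)) z
    have : c * (b * e) < c * (a * f) := by
      calc c * (b * e) = (b * c) * e := by ring
        _ < (a * e) * e := mul_lt_mul_of_pos_right h1 (by linarith)
        _ = a * e ^ 2 := by ring
        _ < a * (c * f) := mul_lt_mul_of_pos_left h2 (by linarith)
        _ = c * (a * f) := by ring
    exact lt_of_mul_lt_mul_left this (by linarith)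

lemma Good.chain {F : ℕ → BinaryTree Unit} {z : ℝ} {J : ℕ} (hz : 0 < z) (hG : Good F z J)
    (i t d : ℕ) (hi : 1 ≤ i) (hJ : i + 2 * t + d + 2 ≤ J) :
    U (F (i + t + 1)) z * U (F (i + t + d + 1)) z < U (F i) z * U (F (i + 2 * t + d + 2)) z := by
  induction t generalizing d with
  | zero => simpa using hG.step hz i d hi (by omega)
  | succ t ih =>
    have h1 := ih (d + 2) (by omega)
    have h2 := hG.step hz (i + t + 1) d (by omega) (by omega)
    have e1 : i + (t + 1) + 1 = i + t + 1 + 1 := by omega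
    have e2 : i + (t + 1) + d + 1 = i + t + 1 + d + 1 := by omega
    have e3 : i + 2 * (t + 1) + d + 2 = i + 2 * t + (d + 2) + 2 := by omega
    have e4 : i + t + (d + 2) + 1 = i + t + 1 + d + 2 := by omega
    rw [e1, e2, e3]; rw [e4] at h1
    linarith

lemma Good.spread {F : ℕ → BinaryTree Unit} {z : ℝ} {J : ℕ} (hz : 0 < z) (hG : Good F z J)
    {i j p q : ℕ} (hi : 1 ≤ i) (hp : i < p) (hpq : p ≤ q) (hs : i + j = p + q) (hJ : j ≤ J) :
    U (F p) z * U (F q) z < U (F i) z * U (F j) z := by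
  have := hG.chain hz i (p - i - 1) (q - p) hi (by omega)
  rwa [show i + (p - i - 1) + 1 = p by omega, show i + (p - i - 1) + (q - p) + 1 = q by omega,
    show i + 2 * (p - i - 1) + (q - p) + 2 = j by omega] at this

lemma Good.mono {F : ℕ → BinaryTree Unit} {z : ℝ} {J K : ℕ} (hG : Good F z J) (h : K ≤ J) :
    Good F z K :=
  ⟨fun m a b => hG.1 m a (b.trans h), fun m a b => hG.2.1 m a (b.trans h),
    fun m a b => hG.2.2 m a (b.trans h)⟩

lemma Good.succ {F : ℕ → BinaryTree Unit} {z : ℝ} {J : ℕ} (hz : 0 < z) (hG : Good F z (J + 2))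
    (h1 : OK (F (J + 3)) z) (h2 : ar (F (J + 2)) z < ar (F (J + 3)) z)
    (h3 : (1 + ar (F (J + 2)) z) ^ 2 ≤ (1 + ar (F (J + 1)) z) * (1 + ar (F (J + 3)) z)) :
    Good F z (J + 3) := by
  refine ⟨fun m a b => ?_, fun m a b => ?_, fun m a b => ?_⟩
  · rcases Nat.lt_or_ge m (J + 3) with c | c
    · exact hG.1 m a (by omega)
    · rw [show m = J + 3 by omega]; exact h1
  · rcases Nat.lt_or_ge m (J + 2) with c | c
    · exact hG.2.1 m a (by omega)
    · rw [show m = J + 2 by omega]; exact h2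
  · rcases Nat.lt_or_ge m (J + 1) with c | c
    · exact hG.2.2 m a (by omega)
    · rw [show m = J + 1 by omega]
      exact key hz (hG.1 _ (by omega) (by omega)) (hG.1 _ (by omega) le_rfl) h1
        (hG.2.1 _ (by omega) le_rfl) h2 h3

lemma good_one {F : ℕ → BinaryTree Unit} {z : ℝ} (h : OK (F 1) z) : Good F z 1 :=
  ⟨fun m a b => by rw [show m = 1 by omega]; exact h, fun m a b => by omega,
    fun m a b => by omega⟩

lemma good_two {F : ℕ → BinaryTree Unit} {z : ℝ} (hz : 0 < z) (e1 : F 1 = .nil)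
    (e2 : F 2 = .node () .nil .nil) (h : OK (F 2) z) : Good F z 2 := by
  have h' := h
  rw [e2] at h'
  refine ⟨fun m a b => ?_, fun m a b => ?_, fun m a b => by omega⟩
  · rcases Nat.lt_or_ge m 2 with c | c
    · rw [show m = 1 by omega, e1]; exact h'.1
    · rw [show m = 2 by omega]; exact h
  · rw [show m = 1 by omega, e1, e2]
    have := h'.1.be_ge hz.le
    simp only [ar] at *
    nlinarith

lemma three {F : ℕ → BinaryTree Unit} {z : ℝ} (hz : 0 < z) (hG : Good F z 2)
    (e2 : 1 + ar (F 2) z = U (F 1) z * U (F 1) z) (e3 : 1 + ar (F 3) z = U (F 1) z * U (F 2) z) :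
    (1 + ar (F 2) z) ^ 2 ≤ (1 + ar (F 1) z) * (1 + ar (F 3) z) := by
  have h1 := base3 hz (hG.1 1 le_rfl (by omega)) (hG.1 2 (by omega) le_rfl) (hG.2.1 1 le_rfl le_rfl)
  have p1 := U_gt hz (hG.1 1 le_rfl (by omega))
  have h2 := mul_le_mul_of_nonneg_left h1 (show 0 ≤ U (F 1) z by linarith)
  rw [e3]
  calc (1 + ar (F 2) z) ^ 2 = (U (F 1) z * U (F 1) z) * (1 + ar (F 2) z) := by rw [← e2]; ring
    _ ≤ _ := by nlinarith

lemma good_CT {z : ℝ} (hz : 0 < z) (k : ℕ) (hk : OK (CT (k + 1)) z) : Good CT z (k + 1) := by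
  induction k with
  | zero => exact good_one hk
  | succ k ih =>
    cases k with
    | zero => exact good_two hz rfl rfl hk
    | succ k =>
      have hG := ih hk.1
      have a3 : 1 + ar (CT (k + 3)) z = U (CT (k + 2)) z * U (CT 1) z := ar_node _ _ _ _
      have a2 : 1 + ar (CT (k + 2)) z = U (CT (k + 1)) z * U (CT 1) z := ar_node _ _ _ _
      have p1 := U_gt hz (hG.1 1 le_rfl (by omega))
      have l1 := U_lt (hG.1 (k + 2) (by omega) le_rfl) (hG.2.1 (k + 1) (by omega) le_rfl)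
      refine hG.succ hz hk (by nlinarith) ?_
      cases k with
      | zero => exact three hz hG a2 (by rw [mul_comm]; exact a3)
      | succ k =>
        have a1 : 1 + ar (CT (k + 2)) z = U (CT (k + 1)) z * U (CT 1) z := ar_node _ _ _ _
        have c := hG.2.2 (k + 1) (by omega) (by omega)
        rw [a3, a2, a1]
        have := mul_le_mul_of_nonneg_right c.le (show 0 ≤ U (CT 1) z ^ 2 by positivity)
        nlinarith

lemma BT_one : BT 1 = .nil := by rw [BT]; simp

lemma BT_eq {k p q : ℕ} (hp : 1 ≤ p) (h1 : p + q = k) (h2 : p ≤ q) (h3 : q ≤ p + 1) :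
    BT k = .node () (BT p) (BT q) := by
  rw [BT, dif_neg (by omega), show k / 2 = p by omega, show k - p = q by omega]

lemma BT_ar {k p q : ℕ} (hp : 1 ≤ p) (h1 : p + q = k) (h2 : p ≤ q) (h3 : q ≤ p + 1) (z : ℝ) :
    1 + ar (BT k) z = U (BT p) z * U (BT q) z := by
  rw [BT_eq hp h1 h2 h3, ar_node]

lemma BT_ok {k p q : ℕ} (hp : 1 ≤ p) (h1 : p + q = k) (h2 : p ≤ q) (h3 : q ≤ p + 1) {z : ℝ}
    (a : OK (BT p) z) (b : OK (BT q) z) (c : ar (BT k) z ≤ 1 / 4) : OK (BT k) z := by
  rw [BT_eq hp h1 h2 h3] at c ⊢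
  exact ⟨a, b, c⟩

lemma good_BT {z : ℝ} (hz : 0 < z) (k : ℕ) (hk : OK (BT (k + 1)) z) : Good BT z (k + 1) := by
  induction k using Nat.strong_induction_on with
  | _ k ih =>
    match k, ih, hk with
    | 0, _, hk => exact good_one hk
    | 1, _, hk =>
      exact good_two hz BT_one (by rw [BT_eq (p := 1) (q := 1) le_rfl rfl le_rfl (by omega), BT_one]) hk
    | k + 2, ih, hk =>
      obtain ⟨m, hm | hm⟩ : ∃ m, k = 2 * m ∨ k = 2 * m + 1 := ⟨k / 2, by omega⟩
      · subst hm
        have e := BT_eq (k := 2 * m + 2 + 1) (p := m + 1) (q := m + 2) (by omega) (by omega)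
          (by omega) le_rfl
        have hk' := hk
        rw [e] at hk'
        have g1 := ih (m + 1) (by omega) hk'.2.1
        have a3 := BT_ar (k := 2 * m + 3) (p := m + 1) (q := m + 2) (by omega) (by omega)
          (by omega) le_rfl z
        have a2 := BT_ar (k := 2 * m + 2) (p := m + 1) (q := m + 1) (by omega) (by omega)
          le_rfl (by omega) z
        have p1 := U_gt hz hk'.1
        have l1 := U_lt hk'.2.1 (g1.2.1 (m + 1) (by omega) le_rfl)
        have hlt : ar (BT (2 * m + 2)) z < ar (BT (2 * m + 3)) z := by nlinarith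
        have o2 : OK (BT (2 * m + 2)) z := BT_ok (p := m + 1) (q := m + 1) (by omega) (by omega)
          le_rfl (by omega) hk'.1 hk'.1 (hlt.le.trans hk.le)
        have hG := ih (2 * m + 1) (by omega) o2
        refine hG.succ hz hk hlt ?_
        cases m with
        | zero => exact three hz hG a2 a3
        | succ m =>
          have a1 := BT_ar (k := 2 * (m + 1) + 1) (p := m + 1) (q := m + 1 + 1) (by omega)
            (by omega) (by omega) le_rfl z
          have c := g1.2.2 (m + 1) (by omega) (by omega)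
          rw [a3, a2, a1]
          have := mul_le_mul_of_nonneg_right c.le
            (show 0 ≤ U (BT (m + 1 + 1)) z ^ 2 by positivity)
          nlinarith
      · subst hm
        have e := BT_eq (k := 2 * m + 1 + 2 + 1) (p := m + 2) (q := m + 2) (by omega) (by omega)
          le_rfl (by omega)
        have hk' := hk
        rw [e] at hk'
        have g1 := ih (m + 1) (by omega) hk'.2.1
        have a3 := BT_ar (k := 2 * m + 1 + 3) (p := m + 2) (q := m + 2) (by omega) (by omega)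
          le_rfl (by omega) z
        have a2 := BT_ar (k := 2 * m + 1 + 2) (p := m + 1) (q := m + 2) (by omega) (by omega)
          (by omega) le_rfl z
        have a1 := BT_ar (k := 2 * m + 1 + 1) (p := m + 1) (q := m + 1) (by omega) (by omega)
          le_rfl (by omega) z
        have p1 := U_gt hz hk'.1
        have l1 := U_lt hk'.2.1 (g1.2.1 (m + 1) (by omega) le_rfl)
        have hlt : ar (BT (2 * m + 1 + 2)) z < ar (BT (2 * m + 1 + 3)) z := by nlinarith
        have o2 : OK (BT (2 * m + 1 + 2)) z := BT_ok (p := m + 1) (q := m + 2) (by omega)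
          (by omega) (by omega) le_rfl (g1.1 _ (by omega) (by omega)) hk'.1 (hlt.le.trans hk.le)
        have hG := ih (2 * m + 1 + 1) (by omega) o2
        refine hG.succ hz hk hlt ?_
        rw [a3, a2, a1]
        exact le_of_eq (by ring)

lemma good_BT' {z : ℝ} (hz : 0 < z) {k : ℕ} (h1 : 1 ≤ k) (hk : OK (BT k) z) : Good BT z k := by
  obtain ⟨k, rfl⟩ : ∃ j, k = j + 1 := ⟨k - 1, by omega⟩
  exact good_BT hz k hk

lemma weak {T S : BinaryTree Unit} (h : Eqv T S ∨ Lt T S) {z : ℝ} (hz : 0 < z) (hS : OK S z) :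
    OK T z ∧ U T z ≤ U S z := by
  rcases h with h | h
  · exact ⟨(h.2 z).1.2 hS, by unfold U; rw [(h.2 z).2]⟩
  · exact ⟨(h z hz hS).1, (U_lt hS (h z hz hS).2).le⟩

lemma Lt.node {a b c d : BinaryTree Unit} (h1 : Eqv a c ∨ Lt a c) (h2 : Eqv b d ∨ Lt b d)
    (h : Lt a c ∨ Lt b d) {z : ℝ} (hz : 0 < z) (hc : OK c z) (hd : OK d z) :
    U a z * U b z < U c z * U d z := by
  obtain ⟨oa, la⟩ := weak h1 hz hc
  obtain ⟨ob, lb⟩ := weak h2 hz hd
  have pa := U_gt hz oa
  have pb := U_gt hz ob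
  rcases h with h | h
  · have := U_lt hc (h z hz hc).2
    nlinarith
  · have := U_lt hd (h z hz hd).2
    nlinarith

lemma cmp_BT (S : BinaryTree Unit) : Eqv (BT S.numLeaves) S ∨ Lt (BT S.numLeaves) S := by
  induction S with
  | nil => left; rw [show numLeaves (.nil : BinaryTree Unit) = 1 from rfl, BT_one]; exact ⟨rfl, fun z => ⟨Iff.rfl, rfl⟩⟩
  | node u l r ihl ihr =>
    have hi := l.numLeaves_pos
    have hj := r.numLeaves_pos
    simp only [numLeaves]
    set i := l.numLeaves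
    set j := r.numLeaves
    obtain ⟨p, q, hp, h1, h2, h3⟩ : ∃ p q, 1 ≤ p ∧ p + q = i + j ∧ p ≤ q ∧ q ≤ p + 1 :=
      ⟨(i + j) / 2, i + j - (i + j) / 2, by omega, by omega, by omega, by omega⟩
    have main : (∀ z, 0 < z → OK (BT p) z → OK (BT q) z → OK l z → OK r z →
        U (BT p) z * U (BT q) z < U l z * U r z) → Lt (BT (i + j)) (.node u l r) := by
      intro hh z hz hS
      obtain ⟨ol, -⟩ := weak ihl hz hS.1
      obtain ⟨or', -⟩ := weak ihr hz hS.2.1
      have g1 := good_BT' hz hi ol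
      have g2 := good_BT' hz hj or'
      have oq : ∀ m, 1 ≤ m → m ≤ q → OK (BT m) z := fun m a b => by
        rcases le_total i j with c | c
        · exact g2.1 m a (by omega)
        · exact g1.1 m a (by omega)
      have hlt : ar (BT (i + j)) z < ar (.node u l r) z := by
        have := hh z hz (oq p hp h2) (oq q (by omega) le_rfl) hS.1 hS.2.1
        rw [← BT_ar hp h1 h2 h3, ← ar_node u] at this
        linarith
      exact ⟨BT_ok hp h1 h2 h3 (oq p hp h2) (oq q (by omega) le_rfl) (hlt.le.trans hS.le), hlt⟩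
    by_cases hb : (i = p ∧ j = q) ∨ (i = q ∧ j = p)
    · by_cases hs : Lt (BT i) l ∨ Lt (BT j) r
      · right
        apply main
        intro z hz _ _ ol or'
        have := Lt.node ihl ihr hs hz ol or'
        rcases hb with ⟨a, b⟩ | ⟨a, b⟩
        · rwa [← a, ← b]
        · rwa [← a, ← b, mul_comm]
      · left
        push Not at hs
        have e1 := ihl.resolve_right hs.1
        have e2 := ihr.resolve_right hs.2
        rw [BT_eq hp h1 h2 h3]
        rcases hb with ⟨a, b⟩ | ⟨a, b⟩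
        · rw [← a, ← b]; exact e1.node e2 _ _
        · rw [← a, ← b]; exact Eqv.swap e2 e1 _ _
    · right
      apply main
      intro z hz _ _ ol or'
      obtain ⟨o1, l1⟩ := weak ihl hz ol
      obtain ⟨o2, l2⟩ := weak ihr hz or'
      have p1 := U_gt hz o1
      have p2 := U_gt hz o2
      have : U (BT p) z * U (BT q) z < U (BT i) z * U (BT j) z := by
        rcases le_total i j with c | c
        · exact (good_BT' hz hj o2).spread hz hi (by omega) h2 h1.symm le_rfl
        · rw [mul_comm (U (BT i) z)]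
          exact (good_BT' hz hi o1).spread hz hj (by omega) h2 (by omega) le_rfl
      nlinarith

lemma cmp_CT (S : BinaryTree Unit) : Eqv S (CT S.numLeaves) ∨ Lt S (CT S.numLeaves) := by
  induction S with
  | nil => left; exact ⟨rfl, fun z => ⟨Iff.rfl, rfl⟩⟩
  | node u l r ihl ihr =>
    have hi := l.numLeaves_pos
    have hj := r.numLeaves_pos
    simp only [numLeaves]
    set i := l.numLeaves
    set j := r.numLeaves
    obtain ⟨k, hk⟩ : ∃ k, i + j = k + 2 := ⟨i + j - 2, by omega⟩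
    rw [hk]
    have e : CT (k + 2) = .node () (CT (k + 1)) (CT 1) := rfl
    have main : (∀ z, 0 < z → Good CT z (k + 1) →
        U l z * U r z < U (CT (k + 1)) z * U (CT 1) z) → Lt (.node u l r) (CT (k + 2)) := by
      intro hh z hz hS
      have g := good_CT hz k hS.1
      obtain ⟨ol, -⟩ := weak ihl hz (g.1 i hi (by omega))
      obtain ⟨or', -⟩ := weak ihr hz (g.1 j hj (by omega))
      have hlt : ar (.node u l r) z < ar (CT (k + 2)) z := by
        have := hh z hz g
        rw [← ar_node u, ← ar_node (), ← e] at this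
        linarith
      exact ⟨⟨ol, or', hlt.le.trans hS.le⟩, hlt⟩
    by_cases hb : (i = k + 1 ∧ j = 1) ∨ (i = 1 ∧ j = k + 1)
    · by_cases hs : Lt l (CT i) ∨ Lt r (CT j)
      · right
        apply main
        intro z hz g
        have := Lt.node ihl ihr hs hz (g.1 i hi (by omega)) (g.1 j hj (by omega))
        rcases hb with ⟨a, b⟩ | ⟨a, b⟩
        · rwa [a, b] at this
        · rwa [a, b, mul_comm (U (CT 1) z)] at this
      · left
        push Not at hs
        have e1 := ihl.resolve_right hs.1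
        have e2 := ihr.resolve_right hs.2
        rw [e]
        rcases hb with ⟨a, b⟩ | ⟨a, b⟩
        · rw [a] at e1; rw [b] at e2; exact e1.node e2 _ _
        · rw [a] at e1; rw [b] at e2; exact Eqv.swap e1 e2 _ _
    · right
      apply main
      intro z hz g
      obtain ⟨o1, l1⟩ := weak ihl hz (g.1 i hi (by omega))
      obtain ⟨o2, l2⟩ := weak ihr hz (g.1 j hj (by omega))
      have p1 := U_gt hz o1
      have p2 := U_gt hz o2
      have : U (CT i) z * U (CT j) z < U (CT 1) z * U (CT (k + 1)) z := by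
        rcases le_total i j with c | c
        · exact g.spread hz le_rfl (by omega) c (by omega) le_rfl
        · rw [mul_comm (U (CT i) z)]
          exact g.spread hz le_rfl (by omega) c (by omega) le_rfl
      nlinarith

lemma ev_le {T S : BinaryTree Unit} (hh : Eqv T S ∨ Lt T S) : ∀ᶠ n in atTop, h T n ≤ h S n := by
  rcases hh with hh | hh
  · exact Eventually.of_forall fun n => by unfold h; rw [hh.1]
  · exact hh.ev

lemma CT_cube {z : ℝ} (hz : 0 < z) (k : ℕ) (hk : OK (CT (k + 1)) z) :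
    ((k : ℝ) + 1) * z ≤ be (ar (CT (k + 1)) z) ∧
      ((k : ℝ) + 1) ^ 3 * z ^ 2 ≤ 3 * be (ar (CT (k + 1)) z) := by
  induction k with
  | zero =>
    have h1 := hk.be_ge hz.le
    have h2 := be_eq hk.le
    have h3 : ar (CT (0 + 1)) z = z := rfl
    constructor <;> push_cast <;> nlinarith
  | succ k ih =>
    obtain ⟨i1, i2⟩ := ih hk.1
    have h1 := hk.2.1.be_ge hz.le
    have h2 := be_eq hk.le
    have h3 : ar (CT (k + 1 + 1)) z = be (ar (CT (k + 1)) z) * be (ar .nil z)
        + be (ar (CT (k + 1)) z) + be (ar .nil z) := rfl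
    have hk0 : (0 : ℝ) ≤ k := Nat.cast_nonneg k
    have h4 : 0 ≤ be (ar (CT (k + 1)) z) * be (ar .nil z) :=
      mul_nonneg (le_trans (by positivity) i1) (hz.le.trans h1)
    set y := be (ar (CT (k + 1 + 1)) z)
    have h5 : ((k : ℝ) + 1 + 1) * z ≤ y := by nlinarith [sq_nonneg y]
    have h6 : (((k : ℝ) + 1 + 1) * z) ^ 2 ≤ y ^ 2 := by
      apply pow_le_pow_left₀ (by positivity) h5
    push_cast
    refine ⟨h5, ?_⟩
    have h7 : 0 ≤ ((k : ℝ) + 1) * z ^ 2 := by positivity
    nlinarith [sq_nonneg z]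

lemma BT_up {z : ℝ} (hz : 0 < z) (k : ℕ) (h1 : 1 ≤ k) (hk : (k : ℝ) * z ≤ 1 / 18) :
    OK (BT k) z ∧ be (ar (BT k) z) ≤ k * z + 9 * (k * z) ^ 2 := by
  induction k using Nat.strong_induction_on with
  | _ k ih =>
    have fin : ∀ x a : ℝ, 0 ≤ x → x ≤ 1 / 18 → a ≤ x + 5 * x ^ 2 + (x + 5 * x ^ 2) ^ 2 / 4 →
        a ≤ 1 / 4 ∧ be a ≤ x + 9 * x ^ 2 := by
      intro x a x0 x1 ha
      have s1 : x + 9 * x ^ 2 ≤ 3 / 2 * x := by nlinarith
      have s2 : (x + 9 * x ^ 2) ^ 2 ≤ (3 / 2 * x) ^ 2 := pow_le_pow_left₀ (by positivity) s1 2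
      have s3 : (x + 5 * x ^ 2) ^ 2 ≤ (3 / 2 * x) ^ 2 :=
        pow_le_pow_left₀ (by positivity) (by nlinarith) 2
      exact ⟨by nlinarith, be_le_of (by nlinarith)⟩
    rcases Nat.lt_or_ge k 2 with c | c
    · obtain rfl : k = 1 := by omega
      rw [BT_one]
      simp only [Nat.cast_one, one_mul] at *
      exact fin z z hz.le hk (by nlinarith [sq_nonneg z, sq_nonneg (z + 5 * z ^ 2)])
    · obtain ⟨p, q, hp, e1, h2, h3⟩ : ∃ p q, 1 ≤ p ∧ p + q = k ∧ p ≤ q ∧ q ≤ p + 1 :=
        ⟨k / 2, k - k / 2, by omega, by omega, by omega, by omega⟩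
      have hkr : (k : ℝ) = p + q := by rw [← e1]; push_cast; ring
      have hp0 : (1 : ℝ) ≤ p := by exact_mod_cast hp
      have hpq : (p : ℝ) ≤ q := by exact_mod_cast h2
      have hqp : (q : ℝ) ≤ p + 1 := by exact_mod_cast h3
      obtain ⟨o1, b1⟩ := ih p (by omega) hp (by nlinarith)
      obtain ⟨o2, b2⟩ := ih q (by omega) (by omega) (by nlinarith)
      have n1 := hz.le.trans (o1.be_ge hz.le)
      have n2 := hz.le.trans (o2.be_ge hz.le)
      have ea : ar (BT k) z = be (ar (BT p) z) * be (ar (BT q) z) + be (ar (BT p) z)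
          + be (ar (BT q) z) := by rw [BT_eq hp e1 h2 h3]; rfl
      have hsq : 9 * ((p : ℝ) ^ 2 + q ^ 2) ≤ 5 * (p + q) ^ 2 := by nlinarith
      have hsum : be (ar (BT p) z) + be (ar (BT q) z) ≤ k * z + 5 * (k * z) ^ 2 := by
        rw [hkr]
        have := mul_le_mul_of_nonneg_right hsq (sq_nonneg z)
        nlinarith
      have hprod : be (ar (BT p) z) * be (ar (BT q) z) ≤ (k * z + 5 * (k * z) ^ 2) ^ 2 / 4 := by
        have := pow_le_pow_left₀ (add_nonneg n1 n2) hsum 2
        nlinarith [sq_nonneg (be (ar (BT p) z) - be (ar (BT q) z))]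
      obtain ⟨f1, f2⟩ := fin (k * z) (ar (BT k) z) (by positivity) hk (by rw [ea]; linarith)
      exact ⟨BT_ok hp e1 h2 h3 o1 o2 f1, f2⟩

lemma BT_leaves (k : ℕ) (h1 : 1 ≤ k) : (BT k).numLeaves = k := by
  induction k using Nat.strong_induction_on with
  | _ k ih =>
    rcases Nat.lt_or_ge k 2 with c | c
    · obtain rfl : k = 1 := by omega
      rw [BT_one]; rfl
    · rw [BT_eq (p := k / 2) (q := k - k / 2) (by omega) (by omega) (by omega) (by omega)]
      simp only [numLeaves]
      rw [ih _ (by omega) (by omega), ih _ (by omega) (by omega)]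
      omega

lemma le_of_sq_le_sq_aux {x : ℝ} (hx : x ^ 2 ≤ 1) : x ≤ 1 := by nlinarith

theorem result :
    (∀ k : ℕ, 1 ≤ k → ∃ N : ℕ, ∀ n ≥ N, ∀ S : BinaryTree Unit, S.numLeaves = k →
      h (BT k) n ≤ h S n ∧ h S n ≤ h (CT k) n) ∧
    Tendsto (fun k : ℕ => alpha (CT k) / k) atTop atTop ∧
    (∀ k : ℕ, 1 ≤ k → 4 * (k : ℝ) ≤ alpha (BT k) ∧ alpha (BT k) ≤ 18 * (k : ℝ)) := by
  refine ⟨fun k hk => ?_, ?_, fun k hk => ⟨?_, ?_⟩⟩
  · have : ∀ᶠ n in atTop, ∀ S ∈ treesOfNumNodesEq (k - 1),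
        h (BT S.numLeaves) n ≤ h S n ∧ h S n ≤ h (CT S.numLeaves) n := by
      rw [eventually_all_finset]
      intro S _
      exact (ev_le (cmp_BT S)).and (ev_le (cmp_CT S))
    obtain ⟨N, hN⟩ := eventually_atTop.1 this
    refine ⟨N, fun n hn S hS => ?_⟩
    have h1 := hN n hn S (by
      rw [mem_treesOfNumNodesEq]
      have := S.numLeaves_eq_numNodes_succ
      omega)
    rwa [hS] at h1
  · rw [tendsto_atTop]
    intro b
    filter_upwards [eventually_ge_atTop (⌈2 * b ^ 2⌉₊ + 1)] with k hk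
    obtain ⟨k, rfl⟩ : ∃ j, k = j + 1 := ⟨k - 1, by omega⟩
    have hp := rho_pos (CT (k + 1))
    have h1 := (CT_cube hp k (OK_rho _)).2
    have h2 := be_le_half (ar (CT (k + 1)) (rho (CT (k + 1))))
    have h3 : 2 * b ^ 2 ≤ (k : ℝ) := (Nat.le_ceil _).trans (by exact_mod_cast (by omega))
    have hk0 : (0 : ℝ) ≤ k := Nat.cast_nonneg k
    unfold alpha
    push_cast
    set r := rho (CT (k + 1))
    rw [inv_eq_one_div, div_div, le_div_iff₀ (by positivity)]
    apply le_of_sq_le_sq_aux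
    have h4 : 2 * b ^ 2 * (r * (k + 1)) ^ 2 ≤ (k + 1) * (r * (k + 1)) ^ 2 :=
      mul_le_mul_of_nonneg_right (by linarith) (by positivity)
    nlinarith
  · have hp := rho_pos (BT k)
    have h1 := (OK_rho (BT k)).ge hp.le
    have h2 := (OK_rho (BT k)).le
    rw [BT_leaves k hk] at h1
    unfold alpha
    rw [inv_eq_one_div, le_div_iff₀ hp]
    linarith
  · have hk0 : (0 : ℝ) < k := by exact_mod_cast hk
    have hz : (0 : ℝ) < 1 / (18 * k) := by positivity
    have h1 := le_rho hz.le (BT_up hz k hk (le_of_eq (by field_simp))).1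
    unfold alpha
    rw [inv_le_comm₀ (rho_pos _) (by positivity)]
    rwa [one_div] at h1

end Pool.Agent.Results.MP_f5c34b_co.Full
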